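import Mathlib
import Pool.Agent.Lib_helper83.EF.Interface

/-!
# The large sieve inequality at Farey fractions (block `LS` of `MP_dcc108_nt`)
-/

set_option autoImplicit false

namespace Pool.Agent.Lib_helper77.EF

open Finset Pool.Agent.Lib_helper83.EF

/-! ### duality -/

theorem duality {ι : Type*} (R : Finset ι) (L : ℕ) (K : ι → ℕ → ℂ) (C : ℝ) (hC : 0 ≤ C)
    (hdual : ∀ b : ι → ℂ, ∑ n ∈ range L, ‖∑ r ∈ R, b r * K r n‖ ^ 2 ≤ C * ∑ r ∈ R, ‖b r‖ ^ 2)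
    (a : ℕ → ℂ) :
    ∑ r ∈ R, ‖∑ n ∈ range L, a n * K r n‖ ^ 2 ≤ C * ∑ n ∈ range L, ‖a n‖ ^ 2 := by
  set S : ι → ℂ := fun r => ∑ n ∈ range L, a n * K r n with hS
  set X : ℝ := ∑ r ∈ R, ‖S r‖ ^ 2 with hX
  set A : ℝ := ∑ n ∈ range L, ‖a n‖ ^ 2 with hA
  have hX0 : 0 ≤ X := sum_nonneg fun _ _ => by positivity
  have hA0 : 0 ≤ A := sum_nonneg fun _ _ => by positivity
  let b : ι → ℂ := fun r => (starRingEnd ℂ) (S r)
  have hbS : ∀ r, ‖b r‖ = ‖S r‖ := fun r => by simp [b]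
  have h1 : (X : ℂ) = ∑ n ∈ range L, a n * ∑ r ∈ R, b r * K r n := by
    have : (X : ℂ) = ∑ r ∈ R, b r * S r := by
      rw [hX]
      push_cast
      refine sum_congr rfl fun r _ => ?_
      simp only [b]
      rw [mul_comm, Complex.mul_conj, Complex.normSq_eq_norm_sq]
      push_cast
      ring
    rw [this]
    simp only [hS, mul_sum]
    rw [sum_comm]
    refine sum_congr rfl fun n _ => sum_congr rfl fun r _ => ?_
    ring
  have h2 : X ≤ ∑ n ∈ range L, ‖a n‖ * ‖∑ r ∈ R, b r * K r n‖ := by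
    have h3 : ‖(X : ℂ)‖ = X := by
      rw [Complex.norm_real, Real.norm_of_nonneg hX0]
    calc X = ‖(X : ℂ)‖ := h3.symm
      _ = ‖∑ n ∈ range L, a n * ∑ r ∈ R, b r * K r n‖ := by rw [h1]
      _ ≤ ∑ n ∈ range L, ‖a n * ∑ r ∈ R, b r * K r n‖ := norm_sum_le _ _
      _ = _ := by simp only [norm_mul]
  have h4 : X ^ 2 ≤ A * (C * X) := by
    have hcs := Finset.sum_mul_sq_le_sq_mul_sq (range L) (fun n => ‖a n‖)
      (fun n => ‖∑ r ∈ R, b r * K r n‖)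
    have h5 : X ^ 2 ≤ (∑ n ∈ range L, ‖a n‖ * ‖∑ r ∈ R, b r * K r n‖) ^ 2 :=
      pow_le_pow_left₀ hX0 h2 2
    have h6 := hdual b
    have h7 : ∑ r ∈ R, ‖b r‖ ^ 2 = X := by simp only [hbS, hX]
    rw [h7] at h6
    calc X ^ 2 ≤ _ := h5
      _ ≤ _ := hcs
      _ ≤ A * (C * X) := mul_le_mul_of_nonneg_left h6 hA0
  rcases hX0.eq_or_lt with h0 | h0
  · rw [← h0]; positivity
  · have : X * X ≤ (C * A) * X := by nlinarith
    exact le_of_mul_le_mul_right this h0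

/-! ### exponentials -/

theorem e_add (x y : ℝ) : e (x + y) = e x * e y := by
  unfold e; rw [← Complex.exp_add]; congr 1; push_cast; ring

theorem e_zero : e 0 = 1 := by simp [e]

theorem norm_e (x : ℝ) : ‖e x‖ = 1 := by
  unfold e
  have : (2 * Real.pi * x * Complex.I : ℂ) = ((2 * Real.pi * x : ℝ) : ℂ) * Complex.I := by
    push_cast; ring
  rw [this, Complex.norm_exp_ofReal_mul_I]

theorem conj_e (x : ℝ) : (starRingEnd ℂ) (e x) = e (-x) := by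
  unfold e
  rw [← Complex.exp_conj]
  congr 1
  simp only [map_mul, Complex.conj_ofReal, Complex.conj_I, map_ofNat]
  push_cast
  ring

theorem e_nsmul (x : ℝ) (n : ℕ) : e ((n : ℝ) * x) = e x ^ n := by
  unfold e
  rw [← Complex.exp_nat_mul]
  congr 1
  push_cast
  ring

/-- `|1 - e x| = 2 |sin (π x)|` -/
theorem norm_one_sub_e (x : ℝ) : ‖e x - 1‖ = 2 * |Real.sin (Real.pi * x)| := by
  have h : e x - 1 = e (x / 2) * (e (x / 2) - e (-(x / 2))) := by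
    rw [mul_sub, ← e_add, ← e_add]
    have h1 : x / 2 + x / 2 = x := by ring
    have h2 : x / 2 + -(x / 2) = 0 := by ring
    rw [h1, h2, e_zero]
  have h2 : e (x / 2) - e (-(x / 2)) = 2 * Complex.I * (Real.sin (Real.pi * x) : ℂ) := by
    unfold e
    rw [Complex.ofReal_sin, Complex.sin]
    have e1 : (2 * Real.pi * ((x / 2 : ℝ) : ℂ) * Complex.I : ℂ)
        = ((Real.pi * x : ℝ) : ℂ) * Complex.I := by push_cast; ring
    have e2 : (2 * Real.pi * ((-(x / 2) : ℝ) : ℂ) * Complex.I : ℂ)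
        = -((Real.pi * x : ℝ) : ℂ) * Complex.I := by push_cast; ring
    rw [e1, e2]
    have hI : Complex.I * Complex.I = -1 := Complex.I_mul_I
    linear_combination (-(Complex.exp (-((Real.pi * x : ℝ) : ℂ) * Complex.I)
      - Complex.exp (((Real.pi * x : ℝ) : ℂ) * Complex.I))) * hI
  rw [h, norm_mul, norm_e, one_mul, h2, norm_mul, norm_mul, Complex.norm_I, Complex.norm_real]
  simp

/-- Jordan-type lower bound on `(0, 1)` -/
theorem sin_lower {x : ℝ} (h0 : 0 ≤ x) (h1 : x ≤ 1) :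
    2 * min x (1 - x) ≤ |Real.sin (Real.pi * x)| := by
  have hpi := Real.pi_pos
  rcases le_total x (1 / 2) with h | h
  · have h2 : 2 / Real.pi * (Real.pi * x) ≤ Real.sin (Real.pi * x) :=
      Real.mul_le_sin (by positivity) (by nlinarith)
    have h3 : 2 / Real.pi * (Real.pi * x) = 2 * x := by field_simp
    calc 2 * min x (1 - x) ≤ 2 * x := by linarith [min_le_left x (1 - x)]
      _ ≤ Real.sin (Real.pi * x) := by rw [← h3]; exact h2
      _ ≤ _ := le_abs_self _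
  · have h2 : 2 / Real.pi * (Real.pi * (1 - x)) ≤ Real.sin (Real.pi * (1 - x)) :=
      Real.mul_le_sin (by nlinarith) (by nlinarith)
    have h3 : 2 / Real.pi * (Real.pi * (1 - x)) = 2 * (1 - x) := by field_simp
    have h4 : Real.sin (Real.pi * (1 - x)) = Real.sin (Real.pi * x) := by
      rw [mul_sub, mul_one, Real.sin_pi_sub]
    calc 2 * min x (1 - x) ≤ 2 * (1 - x) := by linarith [min_le_right x (1 - x)]
      _ ≤ Real.sin (Real.pi * x) := by rw [← h3, ← h4]; exact h2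
      _ ≤ _ := le_abs_self _

/-- the Dirichlet kernel -/
noncomputable def D (M : ℕ) (x : ℝ) : ℂ := ∑ i ∈ range M, e ((i : ℝ) * x)

theorem norm_D_le (M : ℕ) (x : ℝ) : ‖D M x‖ ≤ M := by
  unfold D
  calc _ ≤ ∑ i ∈ range M, ‖e ((i : ℝ) * x)‖ := norm_sum_le _ _
    _ = M := by simp [norm_e]

theorem norm_D_neg (M : ℕ) (x : ℝ) : ‖D M (-x)‖ = ‖D M x‖ := by
  have : D M (-x) = (starRingEnd ℂ) (D M x) := by
    unfold D
    rw [map_sum]
    refine sum_congr rfl fun i _ => ?_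
    rw [conj_e]
    congr 1
    ring
  rw [this]
  simp

theorem norm_D_sq_le (M : ℕ) {x : ℝ} (h0 : 0 < x) (h1 : x < 1) :
    ‖D M x‖ ^ 2 ≤ (1 / 4) * (1 / x ^ 2 + 1 / (1 - x) ^ 2) := by
  have hx1 : 0 < 1 - x := by linarith
  set m := min x (1 - x) with hm
  have hm0 : 0 < m := lt_min h0 hx1
  have hlow : 4 * m ≤ ‖e x - 1‖ := by
    rw [norm_one_sub_e]
    have := sin_lower h0.le h1.le
    linarith
  have hne : e x - 1 ≠ 0 := by
    intro h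
    rw [h, norm_zero] at hlow
    linarith
  have hgeom : D M x * (e x - 1) = e x ^ M - 1 := by
    unfold D
    simp only [e_nsmul]
    exact geom_sum_mul (e x) M
  have hup : ‖D M x‖ * ‖e x - 1‖ ≤ 2 := by
    rw [← norm_mul, hgeom]
    calc ‖e x ^ M - 1‖ ≤ ‖e x ^ M‖ + ‖(1 : ℂ)‖ := norm_sub_le _ _
      _ = 2 := by rw [norm_pow, norm_e]; norm_num
  have h2 : ‖D M x‖ * (2 * m) ≤ 1 := by
    have h3 : ‖D M x‖ * (4 * m) ≤ 2 :=
      (mul_le_mul_of_nonneg_left hlow (norm_nonneg _)).trans hup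
    linarith
  have h4 : ‖D M x‖ ≤ 1 / (2 * m) := by
    rw [le_div_iff₀ (by positivity)]; exact h2
  have h5 : ‖D M x‖ ^ 2 ≤ (1 / 4) * (1 / m ^ 2) := by
    calc ‖D M x‖ ^ 2 ≤ (1 / (2 * m)) ^ 2 := pow_le_pow_left₀ (norm_nonneg _) h4 2
      _ = (1 / 4) * (1 / m ^ 2) := by field_simp; norm_num
  refine h5.trans (mul_le_mul_of_nonneg_left ?_ (by norm_num))
  rcases min_choice x (1 - x) with h | h
  · rw [hm, h]
    have : 0 ≤ 1 / (1 - x) ^ 2 := by positivity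
    linarith
  · rw [hm, h]
    have : 0 ≤ 1 / x ^ 2 := by positivity
    linarith

/-! ### spacing -/

theorem sum_inv_sq_le (K : ℕ) : ∑ k ∈ Icc 1 K, (1 : ℝ) / (k : ℝ) ^ 2 ≤ 2 := by
  have h : ∀ K : ℕ, 1 ≤ K → ∑ k ∈ Icc 1 K, (1 : ℝ) / (k : ℝ) ^ 2 ≤ 2 - 1 / (K : ℝ) := by
    intro K hK
    induction K, hK using Nat.le_induction with
    | base => norm_num
    | succ n hn ih =>
      rw [sum_Icc_succ_top (by omega)]
      have hn0 : (0 : ℝ) < n := by exact_mod_cast hn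
      have h2 : (1 : ℝ) / ((n + 1 : ℕ) : ℝ) ^ 2 ≤ 1 / (n : ℝ) - 1 / ((n + 1 : ℕ) : ℝ) := by
        push_cast
        rw [div_sub_div _ _ (by positivity) (by positivity), div_le_div_iff₀ (by positivity)
          (by positivity)]
        nlinarith
      linarith
  rcases Nat.eq_zero_or_pos K with h0 | h0
  · subst h0; simp
  · have := h K h0
    have h3 : (0 : ℝ) ≤ 1 / (K : ℝ) := by positivity
    linarith

theorem spaced_sum {ι : Type*} (T : Finset ι) (y : ι → ℝ) (δ : ℝ) (hδ : 0 < δ)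
    (hy : ∀ s ∈ T, δ ≤ y s) (hsp : ∀ s ∈ T, ∀ t ∈ T, s ≠ t → δ ≤ |y s - y t|) :
    ∑ s ∈ T, 1 / y s ^ 2 ≤ 2 / δ ^ 2 := by
  classical
  let k : ι → ℕ := fun s => ⌊y s / δ⌋₊
  have hk1 : ∀ s ∈ T, 1 ≤ k s := by
    intro s hs
    refine Nat.le_floor ?_
    rw [Nat.cast_one, le_div_iff₀ hδ, one_mul]
    exact hy s hs
  have hkle : ∀ s ∈ T, δ * (k s : ℝ) ≤ y s := by
    intro s hs
    have h0 : 0 ≤ y s / δ := div_nonneg (hδ.le.trans (hy s hs)) hδ.le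
    have := Nat.floor_le h0
    rw [le_div_iff₀ hδ] at this
    simp only [k]
    linarith
  have hinj : Set.InjOn k T := by
    intro s hs t ht hst
    by_contra hne
    have hd := hsp s hs t ht hne
    have h0s : 0 ≤ y s / δ := div_nonneg (hδ.le.trans (hy s hs)) hδ.le
    have h0t : 0 ≤ y t / δ := div_nonneg (hδ.le.trans (hy t ht)) hδ.le
    have a1 := Nat.floor_le h0s
    have a2 := Nat.lt_floor_add_one (y s / δ)
    have b1 := Nat.floor_le h0t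
    have b2 := Nat.lt_floor_add_one (y t / δ)
    have hst' : (⌊y s / δ⌋₊ : ℝ) = (⌊y t / δ⌋₊ : ℝ) := by exact_mod_cast hst
    have h1 : |y s / δ - y t / δ| < 1 := by
      rw [abs_lt]; constructor <;> linarith
    rw [← sub_div, abs_div, abs_of_pos hδ, div_lt_one hδ] at h1
    linarith
  calc ∑ s ∈ T, 1 / y s ^ 2 ≤ ∑ s ∈ T, (1 / δ ^ 2) * (1 / (k s : ℝ) ^ 2) := by
        refine sum_le_sum fun s hs => ?_
        have h1 : (0 : ℝ) < k s := by exact_mod_cast hk1 s hs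
        have h2 : (1 / δ ^ 2) * (1 / (k s : ℝ) ^ 2) = 1 / (δ * (k s : ℝ)) ^ 2 := by
          rw [mul_pow, div_mul_div_comm, one_mul]
        rw [h2]
        exact one_div_le_one_div_of_le (by positivity)
          (pow_le_pow_left₀ (by positivity) (hkle s hs) 2)
    _ = (1 / δ ^ 2) * ∑ s ∈ T, 1 / (k s : ℝ) ^ 2 := by rw [mul_sum]
    _ = (1 / δ ^ 2) * ∑ j ∈ T.image k, 1 / (j : ℝ) ^ 2 := by rw [sum_image hinj]
    _ ≤ (1 / δ ^ 2) * ∑ j ∈ Icc 1 (T.sup k), 1 / (j : ℝ) ^ 2 := by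
        refine mul_le_mul_of_nonneg_left ?_ (by positivity)
        refine sum_le_sum_of_subset_of_nonneg ?_ fun _ _ _ => by positivity
        intro j hj
        rw [mem_image] at hj
        obtain ⟨s, hs, rfl⟩ := hj
        exact mem_Icc.mpr ⟨hk1 s hs, le_sup hs⟩
    _ ≤ (1 / δ ^ 2) * 2 := mul_le_mul_of_nonneg_left (sum_inv_sq_le _) (by positivity)
    _ = 2 / δ ^ 2 := by ring

/-- two-sided spaced sum of the Dirichlet kernel -/
theorem kernel_row_sum {ι : Type*} [DecidableEq ι] (R : Finset ι) (θ : ι → ℝ) (G L : ℕ)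
    (hG : 0 < G) (hGL : G ^ 2 ≤ L)
    (hsp : ∀ s ∈ R, ∀ t ∈ R, s ≠ t → 1 / (G : ℝ) ^ 2 ≤ |θ s - θ t|)
    (hsp' : ∀ s ∈ R, ∀ t ∈ R, 1 / (G : ℝ) ^ 2 ≤ 1 - |θ s - θ t|) (r : ι) (hr : r ∈ R) :
    ∑ s ∈ R, ‖D (2 * L) (θ r - θ s)‖ ^ 2 ≤ 6 * (L : ℝ) ^ 2 := by
  classical
  have hGR : (0 : ℝ) < G := by exact_mod_cast hG
  set δ : ℝ := 1 / (G : ℝ) ^ 2 with hδ
  have hδ0 : 0 < δ := by positivity
  have hL4 : (G : ℝ) ^ 4 ≤ (L : ℝ) ^ 2 := by
    have h1 : (G : ℝ) ^ 2 ≤ (L : ℝ) := by exact_mod_cast hGL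
    calc (G : ℝ) ^ 4 = ((G : ℝ) ^ 2) ^ 2 := by ring
      _ ≤ (L : ℝ) ^ 2 := pow_le_pow_left₀ (by positivity) h1 2
  have h2δ : 2 / δ ^ 2 = 2 * (G : ℝ) ^ 4 := by
    rw [hδ]; field_simp
  -- the two halves
  have key : ∀ T ⊆ R.erase r, (∀ s ∈ T, ∀ t ∈ T, |θ r - θ s| - |θ r - θ t| = θ t - θ s ∨
      |θ r - θ s| - |θ r - θ t| = θ s - θ t) →
      ∑ s ∈ T, ‖D (2 * L) (θ r - θ s)‖ ^ 2 ≤ (G : ℝ) ^ 4 := by
    intro T hT hsgn
    have hTR : ∀ s ∈ T, s ∈ R ∧ s ≠ r := fun s hs =>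
      ⟨mem_of_mem_erase (hT hs), ne_of_mem_erase (hT hs)⟩
    have hdist : ∀ s ∈ T, ∀ t ∈ T, s ≠ t → δ ≤ |(|θ r - θ s|) - (|θ r - θ t|)| := by
      intro s hs t ht hne
      rcases hsgn s hs t ht with h | h
      · rw [h]; exact hsp t (hTR t ht).1 s (hTR s hs).1 (Ne.symm hne)
      · rw [h]; exact hsp s (hTR s hs).1 t (hTR t ht).1 hne
    have h1 : ∑ s ∈ T, 1 / |θ r - θ s| ^ 2 ≤ 2 / δ ^ 2 :=
      spaced_sum T (fun s => |θ r - θ s|) δ hδ0
        (fun s hs => hsp r hr s (hTR s hs).1 (Ne.symm (hTR s hs).2)) hdist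
    have h2 : ∑ s ∈ T, 1 / (1 - |θ r - θ s|) ^ 2 ≤ 2 / δ ^ 2 := by
      refine spaced_sum T (fun s => 1 - |θ r - θ s|) δ hδ0
        (fun s hs => hsp' r hr s (hTR s hs).1) ?_
      intro s hs t ht hne
      have h3 : (1 - |θ r - θ s|) - (1 - |θ r - θ t|) = -((|θ r - θ s|) - (|θ r - θ t|)) := by
        ring
      rw [h3, abs_neg]
      exact hdist s hs t ht hne
    calc ∑ s ∈ T, ‖D (2 * L) (θ r - θ s)‖ ^ 2
        ≤ ∑ s ∈ T, (1 / 4) * (1 / |θ r - θ s| ^ 2 + 1 / (1 - |θ r - θ s|) ^ 2) := by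
          refine sum_le_sum fun s hs => ?_
          have h4 : 0 < |θ r - θ s| :=
            hδ0.trans_le (hsp r hr s (hTR s hs).1 (Ne.symm (hTR s hs).2))
          have h5 : |θ r - θ s| < 1 := by
            have := hsp' r hr s (hTR s hs).1
            linarith
          have h6 : ‖D (2 * L) (θ r - θ s)‖ = ‖D (2 * L) |θ r - θ s|‖ := by
            rcases abs_choice (θ r - θ s) with h | h
            · rw [h]
            · rw [h, norm_D_neg]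
          rw [h6]
          exact norm_D_sq_le (2 * L) h4 h5
      _ = (1 / 4) * (∑ s ∈ T, 1 / |θ r - θ s| ^ 2 + ∑ s ∈ T, 1 / (1 - |θ r - θ s|) ^ 2) := by
          rw [← mul_sum, sum_add_distrib]
      _ ≤ (1 / 4) * (2 / δ ^ 2 + 2 / δ ^ 2) :=
          mul_le_mul_of_nonneg_left (add_le_add h1 h2) (by norm_num)
      _ = (G : ℝ) ^ 4 := by rw [h2δ]; ring
  have hzero : ‖D (2 * L) (θ r - θ r)‖ ^ 2 ≤ 4 * (L : ℝ) ^ 2 := by
    have := norm_D_le (2 * L) (θ r - θ r)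
    calc ‖D (2 * L) (θ r - θ r)‖ ^ 2 ≤ ((2 * L : ℕ) : ℝ) ^ 2 :=
          pow_le_pow_left₀ (norm_nonneg _) this 2
      _ = 4 * (L : ℝ) ^ 2 := by push_cast; ring
  rw [← add_sum_erase R _ hr]
  rw [← sum_filter_add_sum_filter_not (R.erase r) (fun s => θ s ≤ θ r)]
  have hA : ∑ s ∈ (R.erase r).filter (fun s => θ s ≤ θ r), ‖D (2 * L) (θ r - θ s)‖ ^ 2
      ≤ (G : ℝ) ^ 4 := by
    refine key _ (filter_subset _ _) ?_
    intro s hs t ht
    have h1 := (mem_filter.mp hs).2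
    have h2 := (mem_filter.mp ht).2
    left
    rw [abs_of_nonneg (by linarith), abs_of_nonneg (by linarith)]
    ring
  have hB : ∑ s ∈ (R.erase r).filter (fun s => ¬ θ s ≤ θ r), ‖D (2 * L) (θ r - θ s)‖ ^ 2
      ≤ (G : ℝ) ^ 4 := by
    refine key _ (filter_subset _ _) ?_
    intro s hs t ht
    have h1 := not_le.mp (mem_filter.mp hs).2
    have h2 := not_le.mp (mem_filter.mp ht).2
    right
    rw [abs_of_nonpos (by linarith), abs_of_nonpos (by linarith)]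
    ring
  linarith

/-- the dual inequality -/
theorem dual_ineq {ι : Type*} (R : Finset ι) (θ : ι → ℝ) (L : ℕ) (W : ℝ)
    (hW : ∀ r ∈ R, ∑ s ∈ R, ‖D (2 * L) (θ r - θ s)‖ ^ 2 ≤ W) (b : ι → ℂ) :
    (L : ℝ) * ∑ n ∈ range L, ‖∑ r ∈ R, b r * e ((n : ℝ) * θ r)‖ ^ 2
      ≤ W * ∑ r ∈ R, ‖b r‖ ^ 2 := by
  let B : ℝ → ℂ := fun x => ∑ r ∈ R, b r * e (x * θ r)
  have h1 : (L : ℝ) * ∑ n ∈ range L, ‖B (n : ℝ)‖ ^ 2
      ≤ ∑ i ∈ range (2 * L), ∑ j ∈ range (2 * L), ‖B ((i : ℝ) - (j : ℝ))‖ ^ 2 := by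
    have h2 : (L : ℝ) * ∑ n ∈ range L, ‖B (n : ℝ)‖ ^ 2
        = ∑ p ∈ range L ×ˢ range L, ‖B (p.1 : ℝ)‖ ^ 2 := by
      rw [sum_product]
      simp only [sum_const, card_range, nsmul_eq_mul]
      rw [mul_sum]
    have h3 : ∑ i ∈ range (2 * L), ∑ j ∈ range (2 * L), ‖B ((i : ℝ) - (j : ℝ))‖ ^ 2
        = ∑ p ∈ range (2 * L) ×ˢ range (2 * L), ‖B ((p.1 : ℝ) - (p.2 : ℝ))‖ ^ 2 := by
      rw [sum_product]
    rw [h2, h3]
    have hinj : Set.InjOn (fun p : ℕ × ℕ => (p.1 + p.2, p.2)) (range L ×ˢ range L : Finset _) := by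
      intro p _ q _ h
      simp only [Prod.mk.injEq] at h
      ext
      · omega
      · exact h.2
    calc ∑ p ∈ range L ×ˢ range L, ‖B (p.1 : ℝ)‖ ^ 2
        = ∑ p ∈ (range L ×ˢ range L).image (fun p : ℕ × ℕ => (p.1 + p.2, p.2)),
            ‖B ((p.1 : ℝ) - (p.2 : ℝ))‖ ^ 2 := by
          rw [sum_image hinj]
          refine sum_congr rfl fun p _ => ?_
          push_cast
          rw [add_sub_cancel_right]
      _ ≤ _ := by
          refine sum_le_sum_of_subset_of_nonneg ?_ fun _ _ _ => by positivity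
          intro p hp
          rw [mem_image] at hp
          obtain ⟨q, hq, rfl⟩ := hp
          rw [mem_product, mem_range, mem_range] at hq
          rw [mem_product, mem_range, mem_range]
          constructor
          · show q.1 + q.2 < 2 * L
            omega
          · show q.2 < 2 * L
            omega
  have h4 : ((∑ i ∈ range (2 * L), ∑ j ∈ range (2 * L), ‖B ((i : ℝ) - (j : ℝ))‖ ^ 2 : ℝ) : ℂ)
      = ∑ r ∈ R, ∑ s ∈ R, b r * (starRingEnd ℂ) (b s) *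
          ((‖D (2 * L) (θ r - θ s)‖ ^ 2 : ℝ) : ℂ) := by
    have h5 : ∀ x : ℝ, ((‖B x‖ ^ 2 : ℝ) : ℂ)
        = ∑ r ∈ R, ∑ s ∈ R, b r * (starRingEnd ℂ) (b s) * e (x * (θ r - θ s)) := by
      intro x
      have h6 : ((‖B x‖ ^ 2 : ℝ) : ℂ) = B x * (starRingEnd ℂ) (B x) := by
        rw [Complex.mul_conj, Complex.normSq_eq_norm_sq]
      rw [h6]
      simp only [B, map_sum, map_mul, conj_e]
      rw [sum_mul_sum]
      refine sum_congr rfl fun r _ => sum_congr rfl fun s _ => ?_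
      have h7 : x * (θ r - θ s) = x * θ r + -(x * θ s) := by ring
      rw [h7, e_add]
      ring
    push_cast only [Complex.ofReal_sum]
    have h8 : ∀ i j : ℕ, ((‖B ((i : ℝ) - (j : ℝ))‖ ^ 2 : ℝ) : ℂ)
        = ∑ r ∈ R, ∑ s ∈ R, b r * (starRingEnd ℂ) (b s) *
          (e ((i : ℝ) * (θ r - θ s)) * (starRingEnd ℂ) (e ((j : ℝ) * (θ r - θ s)))) := by
      intro i j
      rw [h5]
      refine sum_congr rfl fun r _ => sum_congr rfl fun s _ => ?_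
      rw [conj_e, ← e_add]
      congr 2
      ring
    simp only [h8]
    have h9 : ∀ r s : ι, (((‖D (2 * L) (θ r - θ s)‖ ^ 2 : ℝ)) : ℂ)
        = ∑ i ∈ range (2 * L), ∑ j ∈ range (2 * L),
          (e ((i : ℝ) * (θ r - θ s)) * (starRingEnd ℂ) (e ((j : ℝ) * (θ r - θ s)))) := by
      intro r s
      have h6 : ((‖D (2 * L) (θ r - θ s)‖ ^ 2 : ℝ) : ℂ)
          = D (2 * L) (θ r - θ s) * (starRingEnd ℂ) (D (2 * L) (θ r - θ s)) := by
        rw [Complex.mul_conj, Complex.normSq_eq_norm_sq]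
      rw [h6]
      unfold D
      rw [map_sum, sum_mul_sum]
    simp only [h9, mul_sum]
    calc _ = ∑ i ∈ range (2 * L), ∑ r ∈ R, ∑ j ∈ range (2 * L), ∑ s ∈ R,
              b r * (starRingEnd ℂ) (b s) * (e ((i : ℝ) * (θ r - θ s)) *
                (starRingEnd ℂ) (e ((j : ℝ) * (θ r - θ s)))) := by
          refine sum_congr rfl fun i _ => ?_
          rw [sum_comm]
      _ = ∑ r ∈ R, ∑ i ∈ range (2 * L), ∑ s ∈ R, ∑ j ∈ range (2 * L),
              b r * (starRingEnd ℂ) (b s) * (e ((i : ℝ) * (θ r - θ s)) *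
                (starRingEnd ℂ) (e ((j : ℝ) * (θ r - θ s)))) := by
          rw [sum_comm]
          refine sum_congr rfl fun r _ => sum_congr rfl fun i _ => ?_
          rw [sum_comm]
      _ = _ := by
          refine sum_congr rfl fun r _ => ?_
          rw [sum_comm]
  have h10 : ∑ i ∈ range (2 * L), ∑ j ∈ range (2 * L), ‖B ((i : ℝ) - (j : ℝ))‖ ^ 2
      ≤ ∑ r ∈ R, ∑ s ∈ R, ‖b r‖ * ‖b s‖ * ‖D (2 * L) (θ r - θ s)‖ ^ 2 := by
    have h11 : 0 ≤ ∑ i ∈ range (2 * L), ∑ j ∈ range (2 * L), ‖B ((i : ℝ) - (j : ℝ))‖ ^ 2 :=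
      sum_nonneg fun _ _ => sum_nonneg fun _ _ => by positivity
    calc _ = ‖((∑ i ∈ range (2 * L), ∑ j ∈ range (2 * L),
              ‖B ((i : ℝ) - (j : ℝ))‖ ^ 2 : ℝ) : ℂ)‖ := by
          rw [Complex.norm_real, Real.norm_of_nonneg h11]
      _ ≤ ∑ r ∈ R, ∑ s ∈ R, ‖b r * (starRingEnd ℂ) (b s) *
          ((‖D (2 * L) (θ r - θ s)‖ ^ 2 : ℝ) : ℂ)‖ := by
          rw [h4]
          exact (norm_sum_le _ _).trans (sum_le_sum fun r _ => norm_sum_le _ _)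
      _ = _ := by
          refine sum_congr rfl fun r _ => sum_congr rfl fun s _ => ?_
          rw [norm_mul, norm_mul, RCLike.norm_conj, Complex.norm_real,
            Real.norm_of_nonneg (by positivity)]
  have h12 : ∑ r ∈ R, ∑ s ∈ R, ‖b r‖ * ‖b s‖ * ‖D (2 * L) (θ r - θ s)‖ ^ 2
      ≤ W * ∑ r ∈ R, ‖b r‖ ^ 2 := by
    have hsym : ∀ r s : ι, ‖D (2 * L) (θ r - θ s)‖ = ‖D (2 * L) (θ s - θ r)‖ := by
      intro r s
      rw [← norm_D_neg, neg_sub]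
    have h13 : ∑ r ∈ R, ∑ s ∈ R, ‖b r‖ * ‖b s‖ * ‖D (2 * L) (θ r - θ s)‖ ^ 2
        ≤ ∑ r ∈ R, ∑ s ∈ R, ((1 / 2) * (‖b r‖ ^ 2 * ‖D (2 * L) (θ r - θ s)‖ ^ 2)
            + (1 / 2) * (‖b s‖ ^ 2 * ‖D (2 * L) (θ r - θ s)‖ ^ 2)) := by
      refine sum_le_sum fun r _ => sum_le_sum fun s _ => ?_
      have h14 : ‖b r‖ * ‖b s‖ ≤ (1 / 2) * (‖b r‖ ^ 2 + ‖b s‖ ^ 2) := by
        nlinarith [sq_nonneg (‖b r‖ - ‖b s‖)]
      have h15 : 0 ≤ ‖D (2 * L) (θ r - θ s)‖ ^ 2 := by positivity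
      nlinarith [mul_le_mul_of_nonneg_right h14 h15]
    have h16 : ∑ r ∈ R, ∑ s ∈ R, ‖b r‖ ^ 2 * ‖D (2 * L) (θ r - θ s)‖ ^ 2
        ≤ W * ∑ r ∈ R, ‖b r‖ ^ 2 := by
      rw [mul_sum]
      refine sum_le_sum fun r hr => ?_
      rw [← mul_sum, mul_comm W]
      exact mul_le_mul_of_nonneg_left (hW r hr) (by positivity)
    have h17 : ∑ r ∈ R, ∑ s ∈ R, ‖b s‖ ^ 2 * ‖D (2 * L) (θ r - θ s)‖ ^ 2
        = ∑ r ∈ R, ∑ s ∈ R, ‖b r‖ ^ 2 * ‖D (2 * L) (θ r - θ s)‖ ^ 2 := by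
      rw [sum_comm]
      refine sum_congr rfl fun r _ => sum_congr rfl fun s _ => ?_
      rw [hsym s r]
    calc _ ≤ _ := h13
      _ = (1 / 2) * ∑ r ∈ R, ∑ s ∈ R, ‖b r‖ ^ 2 * ‖D (2 * L) (θ r - θ s)‖ ^ 2
          + (1 / 2) * ∑ r ∈ R, ∑ s ∈ R, ‖b s‖ ^ 2 * ‖D (2 * L) (θ r - θ s)‖ ^ 2 := by
          simp only [sum_add_distrib, mul_sum]
      _ ≤ _ := by rw [h17]; linarith
  exact h1.trans (h10.trans h12)

/-! ### Farey fractions -/

theorem farey_spacing {G d h d' h' : ℕ} (hd : 0 < d) (hdG : d ≤ G) (hd' : 0 < d') (hdG' : d' ≤ G)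
    (hc : Nat.Coprime h d) (hc' : Nat.Coprime h' d') (hne : (d, h) ≠ (d', h')) :
    1 / (G : ℝ) ^ 2 ≤ |(h : ℝ) / (d : ℝ) - (h' : ℝ) / (d' : ℝ)| := by
  have hdR : (0 : ℝ) < d := by exact_mod_cast hd
  have hdR' : (0 : ℝ) < d' := by exact_mod_cast hd'
  have hGR : (0 : ℝ) < G := by exact_mod_cast hd.trans_le hdG
  have hne' : h * d' ≠ h' * d := by
    intro heq
    apply hne
    have h1 : d ∣ d' := by
      have : d ∣ h * d' := ⟨h', by rw [heq, mul_comm]⟩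
      exact (Nat.Coprime.dvd_of_dvd_mul_left hc.symm this)
    have h2 : d' ∣ d := by
      have : d' ∣ h' * d := ⟨h, by rw [← heq, mul_comm]⟩
      exact (Nat.Coprime.dvd_of_dvd_mul_left hc'.symm this)
    have h3 : d = d' := Nat.dvd_antisymm h1 h2
    subst h3
    have h4 : h = h' := Nat.eq_of_mul_eq_mul_right hd heq
    rw [h4]
  have h1 : (1 : ℝ) ≤ |(h : ℝ) * d' - h' * d| := by
    have h2 : ((h : ℤ) * d' - h' * d) ≠ 0 := by
      intro h0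
      apply hne'
      have : (h : ℤ) * d' = h' * d := by linarith
      exact_mod_cast this
    have h3 : (1 : ℤ) ≤ |(h : ℤ) * d' - h' * d| := Int.one_le_abs h2
    have h4 : ((1 : ℤ) : ℝ) ≤ ((|(h : ℤ) * d' - h' * d| : ℤ) : ℝ) := by exact_mod_cast h3
    push_cast at h4
    exact h4
  rw [div_sub_div _ _ hdR.ne' hdR'.ne', abs_div, abs_of_pos (mul_pos hdR hdR'),
    mul_comm (d : ℝ) (h' : ℝ)]
  rw [div_le_div_iff₀ (by positivity) (by positivity), one_mul]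
  have h5 : (d : ℝ) * d' ≤ (G : ℝ) ^ 2 := by
    have a1 : (d : ℝ) ≤ G := by exact_mod_cast hdG
    have a2 : (d' : ℝ) ≤ G := by exact_mod_cast hdG'
    nlinarith
  calc (d : ℝ) * d' ≤ 1 * (G : ℝ) ^ 2 := by rw [one_mul]; exact h5
    _ ≤ _ := mul_le_mul_of_nonneg_right h1 (by positivity)

theorem farey_range {G d h : ℕ} (hd : 0 < d) (hdG : d ≤ G) (hh : h < d) :
    0 ≤ (h : ℝ) / (d : ℝ) ∧ (h : ℝ) / (d : ℝ) ≤ 1 - 1 / (G : ℝ) := by
  have hdR : (0 : ℝ) < d := by exact_mod_cast hd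
  have hdG' : (d : ℝ) ≤ G := by exact_mod_cast hdG
  refine ⟨by positivity, ?_⟩
  have h1 : (h : ℝ) + 1 ≤ d := by exact_mod_cast hh
  have h2 : (h : ℝ) / d ≤ 1 - 1 / d := by
    rw [div_le_iff₀ hdR, sub_mul, one_div_mul_cancel hdR.ne']
    linarith
  have h3 : 1 / (G : ℝ) ≤ 1 / (d : ℝ) := one_div_le_one_div_of_le hdR hdG'
  linarith

/-- **Block LS.** -/
theorem ls : LSStatement := by
  intro G L hGL a
  classical
  rcases Nat.eq_zero_or_pos G with hG0 | hG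
  · subst hG0
    simp
    positivity
  have hGR : (0 : ℝ) < G := by exact_mod_cast hG
  have hG1 : (1 : ℝ) ≤ G := by exact_mod_cast hG
  have hLpos : 0 < L := lt_of_lt_of_le (pow_pos hG 2) hGL
  have hLR : (0 : ℝ) < L := by exact_mod_cast hLpos
  set R : Finset (Σ _ : ℕ, ℕ) :=
    (Icc 1 G).sigma (fun d => (range d).filter (fun h => Nat.Coprime h d)) with hR
  let θ : (Σ _ : ℕ, ℕ) → ℝ := fun r => (r.2 : ℝ) / (r.1 : ℝ)
  have hmem : ∀ r ∈ R, 0 < r.1 ∧ r.1 ≤ G ∧ r.2 < r.1 ∧ Nat.Coprime r.2 r.1 := by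
    intro r hr
    rw [hR, mem_sigma, mem_Icc, mem_filter, mem_range] at hr
    exact ⟨hr.1.1, hr.1.2, hr.2.1, hr.2.2⟩
  have hsp : ∀ s ∈ R, ∀ t ∈ R, s ≠ t → 1 / (G : ℝ) ^ 2 ≤ |θ s - θ t| := by
    intro s hs t ht hne
    obtain ⟨s1, s2, s3, s4⟩ := hmem s hs
    obtain ⟨t1, t2, t3, t4⟩ := hmem t ht
    refine farey_spacing s1 s2 t1 t2 s4 t4 ?_
    intro h
    apply hne
    rw [Prod.mk.injEq] at h
    exact Sigma.ext h.1 (heq_of_eq h.2)
  have hsp' : ∀ s ∈ R, ∀ t ∈ R, 1 / (G : ℝ) ^ 2 ≤ 1 - |θ s - θ t| := by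
    intro s hs t ht
    obtain ⟨s1, s2, s3, s4⟩ := hmem s hs
    obtain ⟨t1, t2, t3, t4⟩ := hmem t ht
    obtain ⟨a1, a2⟩ := farey_range s1 s2 s3
    obtain ⟨b1, b2⟩ := farey_range t1 t2 t3
    have h1 : |θ s - θ t| ≤ 1 - 1 / (G : ℝ) := by
      rw [abs_le]
      constructor
      · show -(1 - 1 / (G : ℝ)) ≤ (s.2 : ℝ) / (s.1 : ℝ) - (t.2 : ℝ) / (t.1 : ℝ)
        linarith
      · show (s.2 : ℝ) / (s.1 : ℝ) - (t.2 : ℝ) / (t.1 : ℝ) ≤ 1 - 1 / (G : ℝ)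
        linarith
    have h2 : 1 / (G : ℝ) ^ 2 ≤ 1 / (G : ℝ) := by
      refine one_div_le_one_div_of_le hGR ?_
      nlinarith
    linarith
  have hdual : ∀ b : (Σ _ : ℕ, ℕ) → ℂ,
      ∑ n ∈ range L, ‖∑ r ∈ R, b r * e ((n : ℝ) * θ r)‖ ^ 2
        ≤ (6 * (L : ℝ)) * ∑ r ∈ R, ‖b r‖ ^ 2 := by
    intro b
    have h := dual_ineq R θ L (6 * (L : ℝ) ^ 2)
      (fun r hr => kernel_row_sum R θ G L hG hGL hsp hsp' r hr) b
    have h1 : 6 * (L : ℝ) ^ 2 * ∑ r ∈ R, ‖b r‖ ^ 2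
        = (L : ℝ) * ((6 * (L : ℝ)) * ∑ r ∈ R, ‖b r‖ ^ 2) := by ring
    rw [h1] at h
    exact le_of_mul_le_mul_left h hLR
  have hfin := duality R L (fun r n => e ((n : ℝ) * θ r)) (6 * (L : ℝ)) (by positivity) hdual a
  have hrew : ∑ d ∈ Finset.Icc 1 G, ∑ h ∈ (Finset.range d).filter (fun h => Nat.Coprime h d),
        ‖∑ n ∈ Finset.range L, a n * e ((n : ℝ) * (h : ℝ) / (d : ℝ))‖ ^ 2
      = ∑ r ∈ R, ‖∑ n ∈ range L, a n * e ((n : ℝ) * θ r)‖ ^ 2 := by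
    rw [hR, sum_sigma]
    refine sum_congr rfl fun d _ => sum_congr rfl fun h _ => ?_
    simp only [θ, mul_div_assoc]
  rw [hrew]
  exact hfin

end Pool.Agent.Lib_helper77.EF
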